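import Pool.Agent.Helper69.OWN.ZS

/-!
A zero-sum sequence over `C_3^235 + C_6^2` whose set of lengths is `{2, 243}`.
-/

set_option autoImplicit false

namespace Pool.Agent.Results.MP_5beb4b_co.GapTooLarge

/-- minimal zero-sum sequences: nonempty, with sum zero and no proper nonempty zero-sum
subsequence -/
def MinZeroSum {G : Type} [AddCommGroup G] (U : Multiset G) : Prop :=
  U ≠ 0 ∧ U.sum = 0 ∧ ∀ V ≤ U, V ≠ 0 → V.sum = 0 → V = U

/-- the set of lengths of `B`: the numbers `k` such that `B` is the concatenation of `k` minimal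
zero-sum sequences -/
def Lengths {G : Type} [AddCommGroup G] (B : Multiset G) : Set ℕ :=
  {k | ∃ F : Multiset (Multiset G), Multiset.card F = k ∧ (∀ U ∈ F, MinZeroSum U) ∧ F.sum = B}

open Pool.Agent.Helper15.ZeroSumUV Pool.Agent.Helper69.OWN.ZS

/-- **The gap 241 occurs over `C_3^235 + C_6^2`, for which the formula gives 240.** -/
theorem result : ∃ n : Fin 237 → ℕ, (∀ i, n i = if i.val < 235 then 3 else 6) ∧
    (∃ B : Multiset ((i : Fin 237) → ZMod (n i)), B.sum = 0 ∧ Lengths B = {2, 243}) ∧
    max (Finset.univ.sup n - 2) ((∑ i, n i / 2) - 1) = 240 := by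
  classical
  have hk : 3 ≤ Fintype.card P := by rw [card_P]; norm_num
  have hat : ∀ U : Multiset ((i : Fin 237) → ZMod (nn i)), MinZeroSum U ↔ IsAtom' U := by
    intro U
    constructor
    · rintro ⟨h1, h2, h3⟩
      refine ⟨h1, h2, fun V hV hV0 => ?_⟩
      by_cases h : V = 0
      · exact Or.inl h
      · exact Or.inr (h3 V hV h hV0)
    · rintro ⟨h1, h2, h3⟩
      exact ⟨h1, h2, fun V hV hV1 hV0 => (h3 V hV hV0).resolve_left hV1⟩
  refine ⟨nn, fun i => rfl, ⟨Pos g + Neg g, ?_, ?_⟩, ?_⟩
  · rw [Multiset.sum_add, (pos_isAtom onlyTrivial hk sum_g).2.1,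
      (neg_isAtom onlyTrivial hk sum_g).2.1, add_zero]
  · ext k
    simp only [Set.mem_insert_iff, Set.mem_singleton_iff]
    constructor
    · rintro ⟨F, hF1, hF2, hF3⟩
      have := lengths onlyTrivial g_ne_neg hk F (fun U hU => (hat U).1 (hF2 U hU)) hF3
      rw [card_P] at this
      omega
    · rintro (rfl | rfl)
      · refine ⟨{Pos g, Neg g}, by simp, ?_, by simp⟩
        intro U hU
        simp only [Multiset.insert_eq_cons, Multiset.mem_cons, Multiset.mem_singleton] at hU
        rw [hat]
        rcases hU with rfl | rfl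
        · exact pos_isAtom onlyTrivial hk sum_g
        · exact neg_isAtom onlyTrivial hk sum_g
      · refine ⟨Finset.univ.val.map (fun i => ({g i, - g i} : Multiset _)), ?_, ?_, sum_pairs g⟩
        · rw [Multiset.card_map]
          exact card_P
        · intro U hU
          rw [Multiset.mem_map] at hU
          obtain ⟨i, _, rfl⟩ := hU
          rw [hat]
          exact pair_isAtom onlyTrivial hk i
  · rw [sum_nn]
    have := sup_nn
    omega

end Pool.Agent.Results.MP_5beb4b_co.GapTooLarge
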